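import Mathlib

open Matrix

namespace Pool.Agent.Results.MP_154e02_al.NoSelfadjointRoot

/-- The `H`-adjoint `H⁻¹ X* H` of a square matrix `X`. -/
noncomputable def hAdj {F : Type} [RCLike F] {n : ℕ} (H X : Matrix (Fin n) (Fin n) F) :
    Matrix (Fin n) (Fin n) F := H⁻¹ * Xᴴ * H

theorem result (F : Type) [RCLike F] :
    ∃ (n : ℕ) (H X Y : Matrix (Fin n) (Fin n) F), 1 ≤ n ∧ IsUnit H ∧ Hᴴ = H ∧
      Y * Y = hAdj H X * X ∧ (∀ v, Y *ᵥ v = 0 ↔ X *ᵥ v = 0) ∧
      ¬ ∃ A : Matrix (Fin n) (Fin n) F, hAdj H A = A ∧ A * A = hAdj H X * X := by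
  let H : Matrix (Fin 4) (Fin 4) F := !![1, 0, 0, 0; 0, 1, 0, 0; 0, 0, -1, 0; 0, 0, 0, -1]
  let X : Matrix (Fin 4) (Fin 4) F := !![0, 0, 2, 0; 0, 0, 0, 2; 1, 0, 0, 0; 0, 1, 0, 0]
  let Y : Matrix (Fin 4) (Fin 4) F := !![0, -1, 0, 0; 1, 0, 0, 0; 0, 0, 0, -2; 0, 0, 2, 0]
  let D : Matrix (Fin 4) (Fin 4) F := !![-1, 0, 0, 0; 0, -1, 0, 0; 0, 0, -4, 0; 0, 0, 0, -4]
  have hHH : H * H = 1 := by
    ext i j; fin_cases i <;> fin_cases j <;> simp [H, Matrix.mul_apply, Fin.sum_univ_four]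
  have hinv : H⁻¹ = H := Matrix.inv_eq_left_inv hHH
  have hX : hAdj H X * X = D := by
    unfold hAdj; rw [hinv]
    ext i j
    simp only [Matrix.mul_apply, Fin.sum_univ_four, Matrix.conjTranspose_apply]
    fin_cases i <;> fin_cases j <;> simp [H, X, D] <;> norm_num
  refine ⟨4, H, X, Y, by norm_num, ?_, ?_, ?_, ?_, ?_⟩
  · exact IsUnit.of_mul_eq_one H hHH
  · ext i j; fin_cases i <;> fin_cases j <;> simp [H, Matrix.conjTranspose_apply]
  · rw [hX]
    ext i j
    fin_cases i <;> fin_cases j <;> simp [Y, D, Matrix.mul_apply, Fin.sum_univ_four] <;> norm_num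
  · intro v
    have e1 : Y *ᵥ v = 0 ↔ v = 0 := by
      constructor
      · intro h
        have h0 := congrFun h 0
        have h1 := congrFun h 1
        have h2 := congrFun h 2
        have h3 := congrFun h 3
        simp [Y, Matrix.mulVec, dotProduct, Fin.sum_univ_four] at h0 h1 h2 h3
        ext i; fin_cases i <;> simp [h0, h1, h2, h3]
      · rintro rfl; simp
    have e2 : X *ᵥ v = 0 ↔ v = 0 := by
      constructor
      · intro h
        have h0 := congrFun h 0
        have h1 := congrFun h 1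
        have h2 := congrFun h 2
        have h3 := congrFun h 3
        simp [X, Matrix.mulVec, dotProduct, Fin.sum_univ_four] at h0 h1 h2 h3
        ext i; fin_cases i <;> simp [h0, h1, h2, h3]
      · rintro rfl; simp
    rw [e1, e2]
  · rintro ⟨A, hA, hAA⟩
    rw [hX] at hAA
    unfold hAdj at hA
    rw [hinv] at hA
    have hc : A * D = D * A := by rw [← hAA]; simp [Matrix.mul_assoc]
    have c2 := congrFun (congrFun hc 0) 2
    have c3 := congrFun (congrFun hc 0) 3
    simp [D, Matrix.mul_apply, Fin.sum_univ_four] at c2 c3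
    have z2 : A 0 2 = 0 := by
      have : A 0 2 * 3 = 0 := by linear_combination c2
      simpa using this
    have z3 : A 0 3 = 0 := by
      have : A 0 3 * 3 = 0 := by linear_combination c3
      simpa using this
    have s0 := congrFun (congrFun hA 0) 0
    have s1 := congrFun (congrFun hA 1) 0
    simp only [Matrix.mul_apply, Fin.sum_univ_four, Matrix.conjTranspose_apply] at s0 s1
    simp [H] at s0 s1
    have q := congrFun (congrFun hAA 0) 0
    simp [D, Matrix.mul_apply, Fin.sum_univ_four, z2, z3] at q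
    have q' : ((‖A 0 0‖ ^ 2 + ‖A 0 1‖ ^ 2 : ℝ) : F) = ((-1 : ℝ) : F) := by
      push_cast
      rw [← RCLike.mul_conj, ← RCLike.mul_conj, s0, s1, q]
    have := RCLike.ofReal_injective q'
    nlinarith [sq_nonneg ‖A 0 0‖, sq_nonneg ‖A 0 1‖]

end Pool.Agent.Results.MP_154e02_al.NoSelfadjointRoot
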